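import Pool.Agent.Helper33.DP.Sheet

/-!
MP_fcb106_co, row BQT: bounded quantification over tuples; closure properties of computable
predicates.
-/

set_option autoImplicit false

namespace Pool.Agent.Helper55.PL

open Pool.Agent.Helper33.DP

/-! ### Boolean operations, composition -/

theorem cp_not {α : Type*} [Primcodable α] {p : α → Prop} (hp : ComputablePred p) :
    ComputablePred fun a => ¬ p a := by
  classical
  refine Computable.computablePred ((Primrec.not.to_comp.comp hp.decide).of_eq fun a => ?_)
  simp

theorem cp_and {α : Type*} [Primcodable α] {p q : α → Prop} (hp : ComputablePred p)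
    (hq : ComputablePred q) : ComputablePred fun a => p a ∧ q a := by
  classical
  refine Computable.computablePred ((Primrec.and.to_comp.comp hp.decide hq.decide).of_eq
    fun a => ?_)
  simp

theorem cp_or {α : Type*} [Primcodable α] {p q : α → Prop} (hp : ComputablePred p)
    (hq : ComputablePred q) : ComputablePred fun a => p a ∨ q a := by
  classical
  refine Computable.computablePred ((Primrec.or.to_comp.comp hp.decide hq.decide).of_eq
    fun a => ?_)
  simp

theorem cp_imp {α : Type*} [Primcodable α] {p q : α → Prop} (hp : ComputablePred p)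
    (hq : ComputablePred q) : ComputablePred fun a => p a → q a :=
  (cp_or (cp_not hp) hq).of_eq fun a => by tauto

theorem cp_const {α : Type*} [Primcodable α] (P : Prop) : ComputablePred fun _ : α => P := by
  classical
  exact Computable.computablePred (Computable.const (decide P))

theorem cp_comp {α β : Type*} [Primcodable α] [Primcodable β] {p : β → Prop} {f : α → β}
    (hp : ComputablePred p) (hf : Computable f) : ComputablePred fun a => p (f a) := by
  classical
  exact Computable.computablePred (hp.decide.comp hf)

/-! ### finite quantifiers -/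

theorem cp_exists_mem {α κ : Type*} [Primcodable α] (l : List κ) {p : κ → α → Prop}
    (hp : ∀ i, ComputablePred (p i)) : ComputablePred fun a => ∃ i ∈ l, p i a := by
  induction l with
  | nil => exact (cp_const False).of_eq fun a => by simp
  | cons x l ih => exact (cp_or (hp x) ih).of_eq fun a => by simp

theorem cp_exists_fintype {α κ : Type*} [Primcodable α] [Fintype κ] {p : κ → α → Prop}
    (hp : ∀ i, ComputablePred (p i)) : ComputablePred fun a => ∃ i, p i a :=
  (cp_exists_mem (Finset.univ : Finset κ).toList hp).of_eq fun a => by simp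

theorem cp_forall_fintype {α κ : Type*} [Primcodable α] [Fintype κ] {p : κ → α → Prop}
    (hp : ∀ i, ComputablePred (p i)) : ComputablePred fun a => ∀ i, p i a :=
  (cp_not (cp_exists_fintype fun i => cp_not (hp i))).of_eq fun a => by simp

/-! ### bounded quantifiers -/

/-- bounded existence -/
theorem cp_exists_le {γ : Type*} [Primcodable γ] {q : γ → ℕ → Prop} {b : γ → ℕ}
    (hq : ComputablePred fun t : γ × ℕ => q t.1 t.2) (hb : Computable b) :
    ComputablePred fun c => ∃ x ≤ b c, q c x := by
  classical
  have hqd : Computable fun t : γ × ℕ => decide (q t.1 t.2) := hq.decide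
  have h1 : Computable fun c : γ => Nat.rec (motive := fun _ => Bool) (decide (q c 0))
      (fun y IH => IH || decide (q c (y + 1))) (b c) := by
    refine Computable.nat_rec (f := b) (g := fun c => decide (q c 0))
      (h := fun c (t : ℕ × Bool) => t.2 || decide (q c (t.1 + 1))) hb
      (hqd.comp (Computable.pair Computable.id (Computable.const 0))) ?_
    exact Primrec.or.to_comp.comp (Computable.snd.comp Computable.snd)
      (hqd.comp (Computable.pair Computable.fst (Computable.succ.comp
        (Computable.fst.comp Computable.snd))))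
  refine Computable.computablePred (h1.of_eq fun c => ?_)
  have key : ∀ n, Nat.rec (motive := fun _ => Bool) (decide (q c 0))
      (fun y IH => IH || decide (q c (y + 1))) n = decide (∃ x ≤ n, q c x) := by
    intro n
    induction n with
    | zero => simp
    | succ n ih =>
      show (Nat.rec (motive := fun _ => Bool) (decide (q c 0))
        (fun y IH => IH || decide (q c (y + 1))) n || decide (q c (n + 1))) = _
      rw [ih, Bool.eq_iff_iff, Bool.or_eq_true, decide_eq_true_eq, decide_eq_true_eq,
        decide_eq_true_eq]
      constructor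
      · rintro (⟨x, hx, h⟩ | h)
        · exact ⟨x, hx.trans (Nat.le_succ n), h⟩
        · exact ⟨n + 1, le_rfl, h⟩
      · rintro ⟨x, hx, h⟩
        rcases Nat.le_succ_iff.1 hx with h2 | h2
        · exact Or.inl ⟨x, h2, h⟩
        · rw [h2] at h
          exact Or.inr h
  exact key (b c)

/-- bounded universal quantifier -/
theorem cp_forall_le {γ : Type*} [Primcodable γ] {q : γ → ℕ → Prop} {b : γ → ℕ}
    (hq : ComputablePred fun t : γ × ℕ => q t.1 t.2) (hb : Computable b) :
    ComputablePred fun c => ∀ x ≤ b c, q c x :=
  (cp_not (cp_exists_le (q := fun c x => ¬ q c x) (cp_not hq) hb)).of_eq fun c => by simp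

/-- adding an entry to a tuple -/
theorem primrec_cons {k : ℕ} :
    Primrec fun t : ℕ × (Fin k → ℕ) => (Fin.cons t.1 t.2 : Fin (k + 1) → ℕ) := by
  refine Primrec.fin_curry.2 ?_
  have h : Primrec₂ fun (i : Fin (k + 1)) (t : ℕ × (Fin k → ℕ)) =>
      (Fin.cons t.1 t.2 : Fin (k + 1) → ℕ) i := by
    refine Primrec.fin_curry₁.2 fun i => ?_
    refine Fin.cases ?_ (fun j => ?_) i
    · exact Primrec.fst.of_eq fun t => by simp
    · exact (Primrec.fin_app.comp Primrec.snd (Primrec.const j)).of_eq fun t => by simp
  exact h.comp Primrec.snd Primrec.fst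

/-- the entries of a tuple -/
theorem primrec_entry {k : ℕ} (i : Fin k) : Primrec fun X : Fin k → ℕ => X i :=
  Primrec.fin_app.comp Primrec.id (Primrec.const i)

theorem BQT : ST_BQT := by
  intro α _ k
  induction k generalizing α with
  | zero =>
    intro p hp
    have h := cp_comp hp (f := fun t : α × ℕ => (t.1, (default : Fin 0 → ℕ)))
      (Computable.pair Computable.fst (Computable.const _))
    refine h.of_eq fun t => ⟨fun h => ⟨default, fun i => i.elim0, h⟩, fun ⟨X, _, h⟩ => ?_⟩
    rwa [Subsingleton.elim X default] at h
  | succ k ih =>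
    intro p hp
    have h1 : ComputablePred fun t : (α × ℕ) × (Fin k → ℕ) =>
        p t.1.1 (Fin.cons t.1.2 t.2 : Fin (k + 1) → ℕ) :=
      cp_comp hp (f := fun t : (α × ℕ) × (Fin k → ℕ) =>
        (t.1.1, (Fin.cons t.1.2 t.2 : Fin (k + 1) → ℕ)))
        (Computable.pair (Computable.fst.comp Computable.fst)
          (primrec_cons.to_comp.comp (Computable.pair (Computable.snd.comp Computable.fst)
            Computable.snd)))
    have h2 := ih (α × ℕ) (fun c X => p c.1 (Fin.cons c.2 X : Fin (k + 1) → ℕ)) h1
    have h3 : ComputablePred fun t : (α × ℕ) × ℕ =>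
        ∃ X : Fin k → ℕ, (∀ i, X i ≤ t.1.2) ∧ p t.1.1 (Fin.cons t.2 X : Fin (k + 1) → ℕ) :=
      cp_comp h2 (f := fun t : (α × ℕ) × ℕ => ((t.1.1, t.2), t.1.2))
        (Computable.pair (Computable.pair (Computable.fst.comp Computable.fst) Computable.snd)
          (Computable.snd.comp Computable.fst))
    have h4 := cp_exists_le (γ := α × ℕ) (q := fun c x =>
      ∃ X : Fin k → ℕ, (∀ i, X i ≤ c.2) ∧ p c.1 (Fin.cons x X : Fin (k + 1) → ℕ)) (b := fun c => c.2)
      h3 Computable.snd
    refine h4.of_eq fun t => ⟨?_, ?_⟩
    · rintro ⟨x, hx, X, hX, h⟩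
      refine ⟨Fin.cons x X, fun i => ?_, h⟩
      refine Fin.cases ?_ (fun j => ?_) i
      · simpa using hx
      · simpa using hX j
    · rintro ⟨X, hX, h⟩
      refine ⟨X 0, hX 0, fun i => X i.succ, fun i => hX i.succ, ?_⟩
      have e : (Fin.cons (X 0) (fun i => X i.succ) : Fin (k + 1) → ℕ) = X :=
        Fin.cons_self_tail X
      rw [e]
      exact h

end Pool.Agent.Helper55.PL
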