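import Pool.Agent.Helper33.DP.Sheet

/-!
MP_fcb106_co, row SRCH: recursion by search.
-/

set_option autoImplicit false

namespace Pool.Agent.Helper55.PL

open Pool.Agent.Helper33.DP

theorem SRCH : ST_SRCH := by
  intro α β _ _ R upd s₀ Inv hR hupd h0 hex hstep
  classical
  have hRd : Computable fun t : (α × ℕ) × β => decide (R t.1.1 t.1.2 t.2) := hR.decide
  -- the search
  let g : α × ℕ → ℕ → Option β := fun t k => (Encodable.decode (α := β) k).bind fun b =>
    bif decide (R t.1 t.2 b) then some b else none
  have hc : Computable₂ fun (x : (α × ℕ) × ℕ) (b : β) =>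
      bif decide (R x.1.1 x.1.2 b) then some b else none :=
    Computable.cond (c := fun t : ((α × ℕ) × ℕ) × β => decide (R t.1.1.1 t.1.1.2 t.2))
      (f := fun t : ((α × ℕ) × ℕ) × β => some t.2)
      (g := fun _ : ((α × ℕ) × ℕ) × β => (none : Option β))
      (hRd.comp (g := fun t : ((α × ℕ) × ℕ) × β => (t.1.1, t.2))
        (Computable.pair (Computable.fst.comp Computable.fst) Computable.snd))
      (Computable.option_some.comp Computable.snd) (Computable.const none)
  have hg : Computable₂ g :=
    Computable.option_bind (f := fun x : (α × ℕ) × ℕ => (Encodable.decode x.2 : Option β))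
      (g := fun (x : (α × ℕ) × ℕ) (b : β) => bif decide (R x.1.1 x.1.2 b) then some b else none)
      (Computable.decode.comp Computable.snd) hc
  have hfind : Partrec fun t : α × ℕ => Nat.rfindOpt (g t) := Partrec.rfindOpt hg
  have hnext : Partrec fun t : α × ℕ => (Nat.rfindOpt (g t)).map fun b => upd t.1 t.2 b :=
    hfind.map (hupd.comp (Computable.pair Computable.fst Computable.snd))
  have hspec : ∀ s n b, b ∈ Nat.rfindOpt (g (s, n)) → R s n b := by
    intro s n b hb
    obtain ⟨k, hk⟩ := Nat.rfindOpt_spec hb
    have hk' : ((Encodable.decode (α := β) k).bind fun b =>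
      bif decide (R s n b) then some b else none) = some b := hk
    rw [Option.bind_eq_some_iff] at hk'
    obtain ⟨b', -, hb'⟩ := hk'
    cases hd : decide (R s n b') with
    | true =>
      rw [hd, cond_true, Option.some.injEq] at hb'
      rw [← hb']
      exact of_decide_eq_true hd
    | false =>
      rw [hd, cond_false] at hb'
      cases hb'
  have hdom : ∀ s n b, R s n b → (Nat.rfindOpt (g (s, n))).Dom := by
    intro s n b hb
    refine Nat.rfindOpt_dom.2 ⟨Encodable.encode b, b, ?_⟩
    show ((Encodable.decode (α := β) (Encodable.encode b)).bind fun b =>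
      bif decide (R s n b) then some b else none) = some b
    rw [Encodable.encodek, Option.bind_some, decide_eq_true hb, cond_true]
  -- the recursion
  let F : ℕ →. α := fun n => n.rec (Part.some s₀) fun y IH => IH.bind fun i =>
    (Nat.rfindOpt (g (i, y))).map fun b => upd i y b
  have hF : Partrec F := by
    refine Partrec.nat_rec (f := fun n : ℕ => n) (g := fun _ : ℕ => Part.some s₀)
      (h := fun (_ : ℕ) (t : ℕ × α) => (Nat.rfindOpt (g (t.2, t.1))).map fun b => upd t.2 t.1 b)
      Computable.id (Computable.const s₀) ?_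
    exact hnext.comp (Computable.pair (Computable.snd.comp Computable.snd)
      (Computable.fst.comp Computable.snd))
  have key : ∀ n, ∃ s, F n = Part.some s ∧ Inv n s := by
    intro n
    induction n with
    | zero => exact ⟨s₀, rfl, h0⟩
    | succ n ih =>
      obtain ⟨s, hs, hi⟩ := ih
      obtain ⟨b, hb⟩ := hex n s hi
      have hd := hdom s n b hb
      have hm : (Nat.rfindOpt (g (s, n))).get hd ∈ Nat.rfindOpt (g (s, n)) := Part.get_mem hd
      refine ⟨upd s n ((Nat.rfindOpt (g (s, n))).get hd), ?_, hstep n s _ hi (hspec s n _ hm)⟩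
      have e1 : F (n + 1) = (F n).bind fun i =>
        (Nat.rfindOpt (g (i, n))).map fun b => upd i n b := rfl
      rw [e1, hs, Part.bind_some]
      exact Part.eq_some_iff.2 (Part.mem_map _ hm)
  choose f hf hI using key
  refine ⟨f, hF.of_eq_tot fun n => ?_, ?_, fun n => ⟨hI n, ?_⟩⟩
  · rw [hf n]
    exact Part.mem_some _
  · have h1 := hf 0
    have h2 : F 0 = Part.some s₀ := rfl
    rw [h2] at h1
    exact (Part.some_inj.1 h1).symm
  · have h1 := hf (n + 1)
    have e1 : F (n + 1) = (F n).bind fun i =>
      (Nat.rfindOpt (g (i, n))).map fun b => upd i n b := rfl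
    rw [e1, hf n, Part.bind_some] at h1
    have h2 := Part.eq_some_iff.1 h1
    rw [Part.mem_map_iff] at h2
    obtain ⟨b, hb, hb'⟩ := h2
    exact ⟨b, hspec _ _ _ hb, hb'.symm⟩

end Pool.Agent.Helper55.PL
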